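import Pool.Agent.H211.HY.Stm1

/-!
# Project HY (helper211): uniform domains for the rational map in the two charts
-/

set_option autoImplicit false

open Topology Filter Metric Set MeasureTheory Polynomial

namespace Pool.Agent.H860.HY211

open Pool.Agent.H790R3.RB Pool.Agent.H211.HY

theorem hF_smul {d : ℕ} (x : CV d) (a : ℂ) (p : ℂ × ℂ) : hF x (a • p) = a ^ d • hF x p := by
  have key : ∀ i : Fin 2, ∑ j : Fin (d + 1), x (i, j) * ((a * p.1) ^ (j : ℕ) * (a * p.2) ^ (d - (j : ℕ))) =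
      a ^ d * ∑ j : Fin (d + 1), x (i, j) * (p.1 ^ (j : ℕ) * p.2 ^ (d - (j : ℕ))) := by
    intro i
    rw [Finset.mul_sum]
    refine Finset.sum_congr rfl fun j _ => ?_
    have e : a ^ d = a ^ (j : ℕ) * a ^ (d - (j : ℕ)) := by
      rw [← pow_add]
      congr 1
      have := j.2
      omega
    rw [e, mul_pow, mul_pow]
    ring
  exact Prod.ext (key 0) (key 1)

theorem norm_dn_tau (q : ℂ × ℂ) : ‖dn (tau q) q‖ = ‖q‖ := by
  unfold tau dn
  rw [Prod.norm_def]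
  by_cases h : ‖q.1‖ ≤ ‖q.2‖
  · simp [h]
  · simp [h, le_of_lt (not_le.1 h)]

theorem norm_dn_le (τ : Bool) (q : ℂ × ℂ) : ‖dn τ q‖ ≤ ‖q‖ := by
  unfold dn
  rw [Prod.norm_def]
  cases τ
  · simp
  · simp

theorem dn_sub (τ : Bool) (p q : ℂ × ℂ) : dn τ (p - q) = dn τ p - dn τ q := by
  unfold dn
  cases τ
  · simp
  · simp

theorem tau_smul {a : ℂ} (ha : a ≠ 0) (p : ℂ × ℂ) : tau (a • p) = tau p := by
  unfold tau
  have h : ‖(a • p).1‖ ≤ ‖(a • p).2‖ ↔ ‖p.1‖ ≤ ‖p.2‖ := by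
    rw [Prod.smul_fst, Prod.smul_snd, norm_smul, norm_smul]
    exact mul_le_mul_iff_right₀ (norm_pos_iff.2 ha)
  simp only [h]

theorem iot_ne (τ : Bool) (w : ℂ) : iot τ w ≠ 0 := by
  unfold iot
  cases τ
  · simp
  · simp

theorem norm_zc_le (p : ℂ × ℂ) : ‖zc p‖ ≤ 1 := by
  unfold zc tau lc
  by_cases h : ‖p.1‖ ≤ ‖p.2‖
  · simp only [h, decide_true, if_true]
    rw [norm_div]
    exact div_le_one_of_le₀ h (norm_nonneg _)
  · simp only [h, decide_false, Bool.false_eq_true, if_false]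
    rw [norm_div]
    exact div_le_one_of_le₀ (not_le.1 h).le (norm_nonneg _)

theorem smul_iot_lc {τ : Bool} {p : ℂ × ℂ} (h : dn τ p ≠ 0) : dn τ p • iot τ (lc τ p) = p := by
  unfold dn iot lc at *
  cases τ
  · simp only [Bool.false_eq_true, if_false] at h ⊢
    refine Prod.ext ?_ ?_
    · simp
    · simp [mul_div_cancel₀ _ h]
  · simp only [if_true] at h ⊢
    refine Prod.ext ?_ ?_
    · simp [mul_div_cancel₀ _ h]
    · simp

theorem cr_iot_lc {τ : Bool} {p : ℂ × ℂ} (h : dn τ p ≠ 0) : cr p (iot τ (lc τ p)) = 0 := by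
  unfold dn iot lc cr at *
  cases τ
  · simp only [Bool.false_eq_true, if_false] at h ⊢
    field_simp
    ring
  · simp only [if_true] at h ⊢
    field_simp
    ring

theorem norm_lc_le (τ : Bool) (p : ℂ × ℂ) : ‖lc τ p‖ ≤ ‖p‖ / ‖dn τ p‖ := by
  unfold lc dn
  rw [Prod.norm_def]
  cases τ
  · simp only [Bool.false_eq_true, if_false]
    rw [norm_div]
    gcongr
    exact le_max_right _ _
  · simp only [if_true]
    rw [norm_div]
    gcongr
    exact le_max_left _ _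

theorem dif_hF {d k : ℕ} {X : (Fin k → ℂ) → CV d} {s : Fin k → ℂ} (hX : DifferentiableAt ℂ X s)
    (τ : Bool) (w : ℂ) :
    DifferentiableAt ℂ (fun q : (Fin k → ℂ) × ℂ => hF (X q.1) (iot τ q.2)) (s, w) := by
  have h0 : DifferentiableAt ℂ (fun q : (Fin k → ℂ) × ℂ => X q.1) (s, w) :=
    DifferentiableAt.comp (s, w) (g := X) hX differentiableAt_fst
  have h1 : ∀ i, DifferentiableAt ℂ (fun q : (Fin k → ℂ) × ℂ => X q.1 i) (s, w) :=
    differentiableAt_pi.1 h0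
  have h2 : DifferentiableAt ℂ (fun q : (Fin k → ℂ) × ℂ => (iot τ q.2).1) (s, w) := by
    cases τ
    · show DifferentiableAt ℂ (fun _ : (Fin k → ℂ) × ℂ => (1 : ℂ)) (s, w)
      exact differentiableAt_const _
    · exact differentiableAt_snd
  have h3 : DifferentiableAt ℂ (fun q : (Fin k → ℂ) × ℂ => (iot τ q.2).2) (s, w) := by
    cases τ
    · exact differentiableAt_snd
    · show DifferentiableAt ℂ (fun _ : (Fin k → ℂ) × ℂ => (1 : ℂ)) (s, w)
      exact differentiableAt_const _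
  have h4 : ∀ i : Fin 2, DifferentiableAt ℂ (fun q : (Fin k → ℂ) × ℂ =>
      ∑ j : Fin (d + 1), X q.1 (i, j) * ((iot τ q.2).1 ^ (j : ℕ) * (iot τ q.2).2 ^ (d - (j : ℕ)))) (s, w) := by
    intro i
    exact DifferentiableAt.fun_sum fun j _ => (h1 (i, j)).mul ((h2.pow _).mul (h3.pow _))
  exact (h4 0).prodMk (h4 1)

theorem dif_GG {d k : ℕ} {X : (Fin k → ℂ) → CV d} {s : Fin k → ℂ} (hX : DifferentiableAt ℂ X s)
    (τ τ' : Bool) (w : ℂ) (h : dn τ' (hF (X s) (iot τ w)) ≠ 0) :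
    DifferentiableAt ℂ (fun q : (Fin k → ℂ) × ℂ => GG (X q.1) τ τ' q.2) (s, w) := by
  have h1 := dif_hF hX τ w
  have h2 : DifferentiableAt ℂ (fun q : (Fin k → ℂ) × ℂ => (hF (X q.1) (iot τ q.2)).1) (s, w) := h1.fst
  have h3 : DifferentiableAt ℂ (fun q : (Fin k → ℂ) × ℂ => (hF (X q.1) (iot τ q.2)).2) (s, w) := h1.snd
  cases τ'
  · have h' : (hF (X s) (iot τ w)).1 ≠ 0 := h
    show DifferentiableAt ℂ (fun q : (Fin k → ℂ) × ℂ =>
      (hF (X q.1) (iot τ q.2)).2 / (hF (X q.1) (iot τ q.2)).1) (s, w)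
    simp only [div_eq_mul_inv]
    exact h3.mul (h2.fun_inv h')
  · have h' : (hF (X s) (iot τ w)).2 ≠ 0 := h
    show DifferentiableAt ℂ (fun q : (Fin k → ℂ) × ℂ =>
      (hF (X q.1) (iot τ q.2)).1 / (hF (X q.1) (iot τ q.2)).2) (s, w)
    simp only [div_eq_mul_inv]
    exact h2.mul (h3.fun_inv h')

theorem t_UNIF : S_UNIF := by
  intro d k x₀ X ρ hd hnd hρ hX hX0
  -- lower bound for the denominators at the centres
  have hc0 : ∀ τ : Bool, Continuous (fun z : ℂ => hF x₀ (iot τ z)) := by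
    intro τ
    rw [continuous_iff_continuousAt]
    intro z
    have h1 : DifferentiableAt ℂ (fun q : (Fin k → ℂ) × ℂ => hF x₀ (iot τ q.2)) (0, z) :=
      dif_hF (X := fun _ => x₀) (differentiableAt_const _) τ z
    have h2 : ContinuousAt (fun z : ℂ => ((0 : Fin k → ℂ), z)) z := by fun_prop
    exact ContinuousAt.comp (g := fun q : (Fin k → ℂ) × ℂ => hF x₀ (iot τ q.2))
      (f := fun z : ℂ => ((0 : Fin k → ℂ), z)) h1.continuousAt h2
  have hlow : ∀ τ : Bool, ∃ δ > (0 : ℝ), ∀ z : ℂ, ‖z‖ ≤ 1 → δ ≤ ‖hF x₀ (iot τ z)‖ := by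
    intro τ
    obtain ⟨z0, hz0, hmin⟩ := (isCompact_closedBall (0 : ℂ) 1).exists_isMinOn
      ⟨0, mem_closedBall_self zero_le_one⟩ (hc0 τ).norm.continuousOn
    refine ⟨‖hF x₀ (iot τ z0)‖, norm_pos_iff.2 fun h => iot_ne τ z0 (hnd _ h), fun z hz => ?_⟩
    exact hmin (by rwa [mem_closedBall, dist_zero_right])
  obtain ⟨δ1, hδ1, hl1⟩ := hlow true
  obtain ⟨δ2, hδ2, hl2⟩ := hlow false
  set δ : ℝ := min δ1 δ2 with hδdef
  have hδ : 0 < δ := lt_min hδ1 hδ2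
  have hl : ∀ (τ : Bool) (z : ℂ), ‖z‖ ≤ 1 → δ ≤ ‖hF x₀ (iot τ z)‖ := by
    intro τ z hz
    cases τ
    · exact (min_le_right _ _).trans (hl2 z hz)
    · exact (min_le_left _ _).trans (hl1 z hz)
  have hcen : ∀ p : ℂ × ℂ, p ≠ 0 →
      δ ≤ ‖dn (tau (hF x₀ p)) (hF x₀ (iot (tau p) (zc p)))‖ := by
    intro p hp
    have h1 : dn (tau p) p ≠ 0 := by
      rw [← norm_pos_iff, norm_dn_tau]
      exact norm_pos_iff.2 hp
    have h2 : hF x₀ p = (dn (tau p) p) ^ d • hF x₀ (iot (tau p) (zc p)) := by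
      rw [← hF_smul]
      unfold zc
      rw [smul_iot_lc h1]
    rw [h2, tau_smul (pow_ne_zero _ h1), norm_dn_tau]
    exact hl _ _ (norm_zc_le p)
  -- uniform continuity on a compact set
  let Kc : Set ((Fin k → ℂ) × ℂ) := closedBall 0 (ρ / 2) ×ˢ closedBall 0 2
  have hKc : IsCompact Kc := (isCompact_closedBall _ _).prod (isCompact_closedBall _ _)
  have hXat : ∀ s ∈ ball (0 : Fin k → ℂ) ρ, DifferentiableAt ℂ X s := fun s hs =>
    (hX s hs).differentiableAt (isOpen_ball.mem_nhds hs)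
  have hsub : ∀ s ∈ closedBall (0 : Fin k → ℂ) (ρ / 2), s ∈ ball (0 : Fin k → ℂ) ρ := fun s hs =>
    closedBall_subset_ball (by linarith) hs
  have hcont : ∀ τ : Bool, ContinuousOn (fun q : (Fin k → ℂ) × ℂ => hF (X q.1) (iot τ q.2)) Kc := by
    rintro τ ⟨s, w⟩ hq
    exact (dif_hF (hXat s (hsub s hq.1)) τ w).continuousAt.continuousWithinAt
  have hun : ∀ τ : Bool, ∃ η > (0 : ℝ), ∀ a ∈ Kc, ∀ b ∈ Kc, dist a b < η →
      dist (hF (X a.1) (iot τ a.2)) (hF (X b.1) (iot τ b.2)) < δ / 2 := by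
    intro τ
    have h1 := hKc.uniformContinuousOn_of_continuous (hcont τ)
    exact Metric.uniformContinuousOn_iff.1 h1 (δ / 2) (half_pos hδ)
  have hbd : ∀ τ : Bool, ∃ C : ℝ, ∀ a ∈ Kc, ‖hF (X a.1) (iot τ a.2)‖ ≤ C := fun τ =>
    hKc.exists_bound_of_continuousOn (hcont τ)
  obtain ⟨η1, hη1, hu1⟩ := hun true
  obtain ⟨η2, hη2, hu2⟩ := hun false
  obtain ⟨C1, hC1⟩ := hbd true
  obtain ⟨C2, hC2⟩ := hbd false
  have hu : ∀ (τ : Bool), ∀ a ∈ Kc, ∀ b ∈ Kc, dist a b < min η1 η2 →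
      dist (hF (X a.1) (iot τ a.2)) (hF (X b.1) (iot τ b.2)) < δ / 2 := by
    intro τ a ha b hb hab
    cases τ
    · exact hu2 a ha b hb (lt_of_lt_of_le hab (min_le_right _ _))
    · exact hu1 a ha b hb (lt_of_lt_of_le hab (min_le_left _ _))
  have hC : ∀ (τ : Bool), ∀ a ∈ Kc, ‖hF (X a.1) (iot τ a.2)‖ ≤ max C1 C2 := by
    intro τ a ha
    cases τ
    · exact (hC2 a ha).trans (le_max_right _ _)
    · exact (hC1 a ha).trans (le_max_left _ _)
  refine ⟨min (min η1 η2) (min (ρ / 2) 1), by positivity,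
    (min_le_right _ _).trans ((min_le_left _ _).trans (by linarith)),
    max C1 C2 / (δ / 2), fun p hp s hs w hw => ?_⟩
  rw [mem_ball, dist_zero_right] at hs
  rw [mem_ball] at hw
  have hs1 : ‖s‖ < min η1 η2 := lt_of_lt_of_le hs (min_le_left _ _)
  have hs2 : ‖s‖ < ρ / 2 := lt_of_lt_of_le hs ((min_le_right _ _).trans (min_le_left _ _))
  have hw1 : dist w (zc p) < min η1 η2 := lt_of_lt_of_le hw (min_le_left _ _)
  have hw2 : dist w (zc p) < 1 := lt_of_lt_of_le hw ((min_le_right _ _).trans (min_le_right _ _))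
  have hz := norm_zc_le p
  have ha : ((s, w) : (Fin k → ℂ) × ℂ) ∈ Kc := by
    refine ⟨?_, ?_⟩
    · show s ∈ closedBall (0 : Fin k → ℂ) (ρ / 2)
      rw [mem_closedBall, dist_zero_right]
      exact hs2.le
    · show w ∈ closedBall (0 : ℂ) 2
      rw [mem_closedBall]
      have h1 := dist_triangle w (zc p) 0
      rw [dist_zero_right] at h1
      rw [dist_zero_right] at h1 ⊢
      linarith
  have hb : ((0, zc p) : (Fin k → ℂ) × ℂ) ∈ Kc := by
    refine ⟨?_, ?_⟩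
    · show (0 : Fin k → ℂ) ∈ closedBall (0 : Fin k → ℂ) (ρ / 2)
      exact mem_closedBall_self (by linarith)
    · show zc p ∈ closedBall (0 : ℂ) 2
      rw [mem_closedBall, dist_zero_right]
      linarith
  have hdist : dist ((s, w) : (Fin k → ℂ) × ℂ) (0, zc p) < min η1 η2 := by
    rw [Prod.dist_eq]
    exact max_lt (by rw [dist_zero_right]; exact hs1) hw1
  have h1 := hu (tau p) _ ha _ hb hdist
  have h1' : ‖hF (X s) (iot (tau p) w) - hF x₀ (iot (tau p) (zc p))‖ < δ / 2 := by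
    have h2 : dist (hF (X s) (iot (tau p) w)) (hF (X 0) (iot (tau p) (zc p))) < δ / 2 := h1
    rwa [hX0, dist_eq_norm] at h2
  have h2 := hcen p hp
  have h3 : δ / 2 ≤ ‖dn (tau (hF x₀ p)) (hF (X s) (iot (tau p) w))‖ := by
    have h4 := norm_dn_le (tau (hF x₀ p)) (hF (X s) (iot (tau p) w) - hF x₀ (iot (tau p) (zc p)))
    rw [dn_sub] at h4
    have h5 := norm_sub_norm_le (dn (tau (hF x₀ p)) (hF x₀ (iot (tau p) (zc p))))
      (dn (tau (hF x₀ p)) (hF (X s) (iot (tau p) w)))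
    rw [norm_sub_rev] at h5
    linarith
  have hne : dn (tau (hF x₀ p)) (hF (X s) (iot (tau p) w)) ≠ 0 := by
    rw [← norm_pos_iff]
    linarith
  refine ⟨hne, cr_iot_lc hne, ?_, ?_⟩
  · have h4 : ‖GG (X s) (tau p) (tau (hF x₀ p)) w‖ ≤ ‖hF (X s) (iot (tau p) w)‖ /
        ‖dn (tau (hF x₀ p)) (hF (X s) (iot (tau p) w))‖ := norm_lc_le _ _
    refine h4.trans ?_
    have h5 : ‖hF (X s) (iot (tau p) w)‖ ≤ max C1 C2 := hC (tau p) _ ha
    have h6 : 0 ≤ max C1 C2 := (norm_nonneg _).trans h5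
    exact div_le_div₀ h6 h5 (half_pos hδ) h3
  · exact dif_GG (hXat s (hsub s ha.1)) _ _ w hne

end Pool.Agent.H860.HY211
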